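import Pool.Agent.Run7.h608.BC.Iface

/-! Piece `ARI` of helper608's project BC. Only `q = 1` and `q = 2` are used: some power `β ^ n`,
`n ≥ 1`, is rational; if the distances of `β ^ j ξ` from the nearest integers tend to zero, they are
zero from some `j` on, so `β` is rational with denominator `1`. -/

set_option autoImplicit false

open MeasureTheory Set Filter Topology

namespace Run7.h594.BC

open Run7.h608.BC

lemma core {P Q w : ℤ} (hcop : IsCoprime Q P) (hQ : 2 ≤ Q) (hw : w ≠ 0)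
    (h : ∀ k : ℕ, ∃ z : ℤ, Q ^ k * z = P ^ k * w) : False := by
  obtain ⟨z, hz⟩ := h w.natAbs
  have h1 : Q ^ w.natAbs ∣ w := by
    have h2 : Q ^ w.natAbs ∣ P ^ w.natAbs * w := ⟨z, hz.symm⟩
    exact (hcop.pow (m := w.natAbs) (n := w.natAbs)).dvd_of_dvd_mul_left h2
  have h3 : Q ^ w.natAbs ∣ |w| := (dvd_abs _ _).2 h1
  have h4 : Q ^ w.natAbs ≤ |w| := Int.le_of_dvd (abs_pos.2 hw) h3
  have h5 : (2 : ℤ) ^ w.natAbs ≤ Q ^ w.natAbs := pow_le_pow_left₀ (by norm_num) hQ _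
  have h6 : w.natAbs < 2 ^ w.natAbs := Nat.lt_two_pow_self
  have h7 : (w.natAbs : ℤ) < 2 ^ w.natAbs := by exact_mod_cast h6
  rw [Int.natCast_natAbs] at h7
  linarith

lemma eps_zero {β ξ : ℝ} (h1 : 1 < β)
    (hlim : Tendsto (fun j : ℕ => β ^ j * ξ - round (β ^ j * ξ)) atTop (𝓝 0))
    {n : ℕ} {A B : ℤ} (hn : 1 ≤ n) (hB : B ≠ 0) (hAB : (B : ℝ) * β ^ n = A) :
    ∃ J : ℕ, ∀ j, J ≤ j → β ^ j * ξ - round (β ^ j * ξ) = 0 := by
  set ε : ℕ → ℝ := fun j => β ^ j * ξ - round (β ^ j * ξ) with hε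
  have hrel : ∀ j : ℕ, (((B * round (β ^ (j + n) * ξ) - A * round (β ^ j * ξ) : ℤ)) : ℝ) =
      A * ε j - B * ε (j + n) := by
    intro j
    simp only [hε]
    push_cast
    rw [← hAB, pow_add]
    ring
  have hl2 : Tendsto (fun j => ε (j + n)) atTop (𝓝 0) :=
    hlim.comp (tendsto_add_atTop_nat n)
  have hl3 : Tendsto (fun j => (A : ℝ) * ε j - B * ε (j + n)) atTop (𝓝 0) := by
    have := (hlim.const_mul (A : ℝ)).sub (hl2.const_mul (B : ℝ))
    simpa using this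
  have hev : ∀ᶠ j in atTop, |(A : ℝ) * ε j - B * ε (j + n)| < 1 := by
    have := hl3.abs
    rw [abs_zero] at this
    exact this.eventually (gt_mem_nhds one_pos)
  obtain ⟨J, hJ⟩ := eventually_atTop.1 hev
  have hstep : ∀ j, J ≤ j → ε (j + n) = β ^ n * ε j := by
    intro j hj
    have h2 := hJ j hj
    rw [← hrel j, ← Int.cast_abs] at h2
    have h3 : |B * round (β ^ (j + n) * ξ) - A * round (β ^ j * ξ)| < 1 := by exact_mod_cast h2
    have h4 : B * round (β ^ (j + n) * ξ) - A * round (β ^ j * ξ) = 0 := Int.abs_lt_one_iff.1 h3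
    have h5 := hrel j
    rw [h4, ← hAB] at h5
    have hB' : (B : ℝ) ≠ 0 := by exact_mod_cast hB
    have h6 : (B : ℝ) * (ε (j + n) - β ^ n * ε j) = 0 := by
      push_cast at h5
      linarith
    have h7 := (mul_eq_zero.1 h6).resolve_left hB'
    linarith
  refine ⟨J, fun j hj => ?_⟩
  have hgrow : ∀ k : ℕ, |ε j| ≤ |ε (j + k * n)| := by
    intro k
    induction k with
    | zero => simp
    | succ k ih =>
      have e1 : j + (k + 1) * n = (j + k * n) + n := by ring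
      have h2 : 1 ≤ β ^ n := one_le_pow₀ h1.le
      rw [e1, hstep (j + k * n) (by omega), abs_mul, abs_of_pos (show 0 < β ^ n by linarith)]
      nlinarith [abs_nonneg (ε (j + k * n))]
  have hl4 : Tendsto (fun k : ℕ => |ε (j + k * n)|) atTop (𝓝 0) := by
    have h2 : Tendsto (fun k : ℕ => j + k * n) atTop atTop := by
      apply tendsto_atTop_mono (f := fun k : ℕ => k) _ tendsto_id
      intro k
      nlinarith
    have := (hlim.comp h2).abs
    rw [abs_zero] at this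
    exact this
  have h3 : |ε j| ≤ 0 := ge_of_tendsto' hl4 hgrow
  exact abs_eq_zero.1 (le_antisymm h3 (abs_nonneg _))

theorem t_ARI : S_ARI := by
  intro β ξ h1 h2 hξ hq hlim
  have hβ0 : 0 < β := by linarith
  obtain ⟨j1, a1, e1⟩ := hq 1 le_rfl
  obtain ⟨j2, a2, e2⟩ := hq 2 (by norm_num)
  have e3 : ((2 * a2 + 1 : ℤ) : ℝ) * β ^ j1 = ((2 * (2 * a1 + 1) : ℤ) : ℝ) * β ^ j2 := by
    have h3 : ξ * (((2 * a2 + 1 : ℤ) : ℝ) * β ^ j1 - ((2 * (2 * a1 + 1) : ℤ) : ℝ) * β ^ j2) = 0 := by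
      push_cast at e1 e2 ⊢
      rw [← e1, ← e2]
      ring
    have h4 := (mul_eq_zero.1 h3).resolve_left hξ
    linarith
  have hrat : ∃ (n : ℕ) (A B : ℤ), 1 ≤ n ∧ B ≠ 0 ∧ (B : ℝ) * β ^ n = A := by
    rcases lt_trichotomy j1 j2 with h3 | h3 | h3
    · obtain ⟨n, hn⟩ := Int.eq_ofNat_of_zero_le (sub_nonneg.2 h3.le)
      refine ⟨n, 2 * a2 + 1, 2 * (2 * a1 + 1), by omega, by omega, ?_⟩
      have e4 : j2 = j1 + n := by omega
      rw [e4, zpow_add₀ hβ0.ne', zpow_natCast] at e3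
      have h5 : β ^ j1 * (((2 * (2 * a1 + 1) : ℤ) : ℝ) * β ^ n - ((2 * a2 + 1 : ℤ) : ℝ)) = 0 := by
        linear_combination -e3
      have h6 := (mul_eq_zero.1 h5).resolve_left (zpow_pos hβ0 _).ne'
      linarith
    · exfalso
      rw [h3] at e3
      have h4 := mul_right_cancel₀ (zpow_pos hβ0 j2).ne' e3
      have h5 : (2 * a2 + 1 : ℤ) = 2 * (2 * a1 + 1) := by exact_mod_cast h4
      omega
    · obtain ⟨n, hn⟩ := Int.eq_ofNat_of_zero_le (sub_nonneg.2 h3.le)
      refine ⟨n, 2 * (2 * a1 + 1), 2 * a2 + 1, by omega, by omega, ?_⟩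
      have e4 : j1 = j2 + n := by omega
      rw [e4, zpow_add₀ hβ0.ne', zpow_natCast] at e3
      have h5 : β ^ j2 * (((2 * a2 + 1 : ℤ) : ℝ) * β ^ n - ((2 * (2 * a1 + 1) : ℤ) : ℝ)) = 0 := by
        linear_combination e3
      have h6 := (mul_eq_zero.1 h5).resolve_left (zpow_pos hβ0 _).ne'
      linarith
  obtain ⟨n, A, B, hn, hB, hAB⟩ := hrat
  obtain ⟨J, hJ⟩ := eps_zero h1 hlim hn hB hAB
  have hy : ∀ k : ℕ, β ^ (J + k) * ξ = (round (β ^ (J + k) * ξ) : ℤ) := by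
    intro k
    have := hJ (J + k) (by omega)
    linarith
  set w : ℤ := round (β ^ J * ξ) with hw
  have hy0 : β ^ J * ξ = w := hy 0
  have hw0 : w ≠ 0 := by
    intro h3
    rw [h3] at hy0
    push_cast at hy0
    rcases mul_eq_zero.1 hy0 with h4 | h4
    · exact (pow_pos hβ0 J).ne' h4
    · exact hξ h4
  have hw0' : (w : ℝ) ≠ 0 := by exact_mod_cast hw0
  have hk : ∀ k : ℕ, ∃ z : ℤ, β ^ k * w = z := by
    intro k
    refine ⟨round (β ^ (J + k) * ξ), ?_⟩
    rw [← hy k, ← hy0, pow_add]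
    ring
  obtain ⟨z1, hz1⟩ := hk 1
  set q : ℚ := z1 / w with hqd
  have hβq : β = q := by
    rw [hqd]
    push_cast
    rw [eq_div_iff hw0', ← hz1, pow_one]
  have hden : (2 : ℤ) ≤ q.den := by
    by_contra hc
    have h3 : q.den = 1 := by
      have := q.den_pos
      omega
    have h4 : (q.num : ℚ) = q := Rat.coe_int_num_of_den_eq_one h3
    have h5 : β = q.num := by
      rw [hβq, ← h4]
      simp
    rw [h5] at h1 h2
    have h6 : (1 : ℤ) < q.num := by exact_mod_cast h1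
    have h7 : q.num < (2 : ℤ) := by exact_mod_cast h2
    omega
  refine core (P := q.num) (Q := q.den) (w := w) ?_ hden hw0 ?_
  · have h3 := q.reduced
    rw [Int.isCoprime_iff_gcd_eq_one, Int.gcd_comm]
    simpa [Int.gcd] using h3
  · intro k
    obtain ⟨z, hz⟩ := hk k
    refine ⟨z, ?_⟩
    have h3 : (q.den : ℝ) * β = q.num := by
      rw [hβq]
      have := Rat.den_mul_eq_num q
      exact_mod_cast this
    have h4 : ((q.den : ℝ)) ^ k * z = (q.num : ℝ) ^ k * w := by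
      rw [← hz, ← h3, mul_pow]
      ring
    exact_mod_cast h4

end Run7.h594.BC
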