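import Pool.Agent.Run7.h608.BC.Iface

/-! Piece `KER` of helper608's project BC: band limited majorants and minorants of an interval. -/

set_option autoImplicit false

open MeasureTheory Set Filter Topology
open scoped ContDiff FourierTransform Convolution SchwartzMap

namespace Run7.h594.BC

open Run7.h608.BC

lemma T_eq (g : ℝ → ℂ) (t : ℝ) : T g t = 𝓕⁻ g t := by
  rw [Real.fourierInv_eq']
  unfold T e
  apply integral_congr_ae
  filter_upwards with v
  rw [smul_eq_mul, mul_comm]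
  congr 3
  simp only [RCLike.inner_apply, conj_trivial]
  ring_nf

/-- the bump -/
noncomputable def fb : ContDiffBump (0 : ℝ) := ⟨1, 2, one_pos, one_lt_two⟩

noncomputable def f0 (x : ℝ) : ℂ := ((fb x : ℝ) : ℂ)

lemma f0_cd : ContDiff ℝ ∞ f0 := Complex.ofRealCLM.contDiff.comp fb.contDiff

lemma f0_cs : HasCompactSupport f0 :=
  fb.hasCompactSupport.comp_left (g := fun x : ℝ => (x : ℂ)) Complex.ofReal_zero

lemma f0_int : Integrable f0 := f0_cd.continuous.integrable_of_hasCompactSupport f0_cs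

noncomputable def k0 : ℝ → ℂ := f0 ⋆[ContinuousLinearMap.mul ℂ ℂ] f0

lemma k0_cd : ContDiff ℝ ∞ k0 := by
  have h : k0 = f0 ⋆[ContinuousLinearMap.mul ℝ ℂ] f0 := rfl
  rw [h]
  exact f0_cs.contDiff_convolution_right (n := ⊤) (ContinuousLinearMap.mul ℝ ℂ)
    f0_int.locallyIntegrable f0_cd

lemma k0_cs : HasCompactSupport k0 := f0_cs.convolution _ f0_cs

/-- the transform of the bump is real -/
noncomputable def ph (s : ℝ) : ℝ := (𝓕 f0 s).re

lemma F_real (s : ℝ) : 𝓕 f0 s = (ph s : ℂ) := by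
  have h1 : (starRingEnd ℂ) (𝓕 f0 s) = 𝓕 f0 s := by
    rw [Real.fourier_real_eq_integral_exp_smul, ← integral_conj]
    rw [← integral_neg_eq_self]
    apply integral_congr_ae
    filter_upwards with v
    simp only [smul_eq_mul, map_mul]
    congr 1
    · rw [← Complex.exp_conj]
      congr 1
      simp only [map_mul, Complex.conj_ofReal, Complex.conj_I]
      push_cast
      ring
    · unfold f0
      rw [Complex.conj_ofReal, fb.neg]
  exact (Complex.conj_eq_iff_re.1 h1).symm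

lemma k0_F (s : ℝ) : 𝓕 k0 s = ((ph s ^ 2 : ℝ) : ℂ) := by
  unfold k0
  rw [Real.fourier_mul_convolution_eq f0_int f0_int, F_real]
  push_cast
  ring

noncomputable def KS : 𝓢(ℝ, ℂ) := k0_cs.toSchwartzMap k0_cd

noncomputable def th (u : ℝ) : ℝ := ph (-u) ^ 2

lemma th_nonneg (u : ℝ) : 0 ≤ th u := sq_nonneg _

lemma T_k0 (u : ℝ) : T k0 u = (th u : ℂ) := by
  rw [T_eq, Real.fourierInv_eq_fourier_neg, k0_F]
  rfl

lemma KS_inv (u : ℝ) : (𝓕⁻ KS) u = (th u : ℂ) := by
  rw [SchwartzMap.fourierInv_coe, ← T_k0, T_eq]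
  rfl

lemma th_int (n : ℕ) : Integrable (fun u => |u| ^ n * th u) := by
  have h1 := (𝓕⁻ KS).integrable_pow_mul volume n
  refine h1.congr ?_
  filter_upwards with u
  rw [KS_inv, Complex.norm_real, Real.norm_eq_abs, Real.norm_eq_abs, abs_of_nonneg (th_nonneg u)]

noncomputable def c0 : ℝ := ∫ u, (fb u : ℝ) ^ 2

lemma c0_pos : 0 < c0 := by
  unfold c0
  refine Continuous.integral_pos_of_hasCompactSupport_nonneg_nonzero (x := 0)
    (fb.continuous.pow 2) ?_ (fun x => by positivity) ?_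
  · have := fb.hasCompactSupport
    exact this.comp_left (g := fun x : ℝ => x ^ 2) (by norm_num)
  · have : fb (0 : ℝ) = 1 := fb.one_of_mem_closedBall (by
      rw [Metric.mem_closedBall, dist_self]
      exact fb.rIn_pos.le)
    rw [this]
    norm_num

lemma k0_zero : k0 0 = (c0 : ℂ) := by
  unfold k0 c0
  rw [convolution_def, ← integral_complex_ofReal]
  apply integral_congr_ae
  filter_upwards with u
  unfold f0
  rw [ContinuousLinearMap.mul_apply', zero_sub, fb.neg]
  push_cast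
  ring

lemma th_mass : ∫ u, th u = c0 := by
  have h1 : 𝓕 (𝓕⁻ KS) = KS := by simp
  have h2 : (𝓕 (𝓕⁻ KS) : 𝓢(ℝ, ℂ)) 0 = ∫ u, (𝓕⁻ KS) u := by
    rw [SchwartzMap.fourier_coe, Real.fourier_real_eq_integral_exp_smul]
    simp
  rw [h1] at h2
  have h3 : KS 0 = k0 0 := rfl
  rw [h3, k0_zero] at h2
  have h4 : (∫ u, (𝓕⁻ KS) u) = ((∫ u, th u : ℝ) : ℂ) := by
    rw [← integral_complex_ofReal]
    apply integral_congr_ae
    filter_upwards with u
    exact KS_inv u
  rw [h4] at h2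
  exact_mod_cast h2.symm

/-! ### rescaling -/

noncomputable def Gd (δ ξ : ℝ) : ℂ := k0 (δ * ξ) / (c0 : ℂ)

lemma Gd_cd (δ : ℝ) : ContDiff ℝ ∞ (Gd δ) :=
  (k0_cd.comp (contDiff_const.mul contDiff_id)).div_const _

lemma Gd_cs {δ : ℝ} (hδ : 0 < δ) : HasCompactSupport (Gd δ) := by
  have h1 := k0_cs.comp_homeomorph (Homeomorph.mulLeft₀ δ hδ.ne')
  exact h1.comp_left (g := fun z : ℂ => z / (c0 : ℂ)) (zero_div _)

noncomputable def td (δ u : ℝ) : ℝ := th (u / δ) / (δ * c0)

lemma td_nonneg {δ : ℝ} (hδ : 0 < δ) (u : ℝ) : 0 ≤ td δ u :=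
  div_nonneg (th_nonneg _) (mul_pos hδ c0_pos).le

lemma T_Gd {δ : ℝ} (hδ : 0 < δ) (u : ℝ) : T (Gd δ) u = (td δ u : ℂ) := by
  have h1 : T (Gd δ) u = ∫ ξ, (fun η : ℝ => k0 η * e (η * (u / δ)) * ((c0 : ℂ))⁻¹) (δ * ξ) := by
    unfold T Gd
    apply integral_congr_ae
    filter_upwards with ξ
    have : δ * ξ * (u / δ) = ξ * u := by
      field_simp
    simp only [this]
    ring
  have h0 := Measure.integral_comp_mul_left
    (fun η : ℝ => k0 η * e (η * (u / δ)) * ((c0 : ℂ))⁻¹) δ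
  rw [h1, h0, integral_mul_const]
  have h2 : ∫ η : ℝ, k0 η * e (η * (u / δ)) = T k0 (u / δ) := rfl
  rw [h2, T_k0, abs_of_pos (inv_pos.2 hδ)]
  unfold td
  have hc : (c0 : ℂ) ≠ 0 := by exact_mod_cast c0_pos.ne'
  have hd : (δ : ℂ) ≠ 0 := by exact_mod_cast hδ.ne'
  rw [Complex.real_smul]
  push_cast
  field_simp

lemma td_int {δ : ℝ} (hδ : 0 < δ) (n : ℕ) : Integrable (fun u => |u| ^ n * td δ u) := by
  have h1 := ((th_int n).comp_div hδ.ne').const_mul (δ ^ n / (δ * c0))
  refine h1.congr ?_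
  filter_upwards with u
  unfold td
  rw [abs_div, abs_of_pos hδ, div_pow]
  have := c0_pos.ne'
  have := hδ.ne'
  field_simp

lemma td_int0 {δ : ℝ} (hδ : 0 < δ) : Integrable (td δ) := by
  simpa using td_int hδ 0

lemma td_int2 {δ : ℝ} (hδ : 0 < δ) : Integrable (fun u => u ^ 2 * td δ u) := by
  simpa using td_int hδ 2

lemma td_mass {δ : ℝ} (hδ : 0 < δ) : ∫ u, td δ u = 1 := by
  have h1 := Measure.integral_comp_div (fun v : ℝ => th v / (δ * c0)) δ
  have h2 : (fun u => td δ u) = fun u => (fun v : ℝ => th v / (δ * c0)) (u / δ) := rfl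
  rw [h2, h1, integral_div, th_mass, abs_of_pos hδ, smul_eq_mul]
  have := c0_pos.ne'
  have := hδ.ne'
  field_simp

noncomputable def M2 : ℝ := (∫ v, v ^ 2 * th v) / c0

lemma M2_nonneg : 0 ≤ M2 :=
  div_nonneg (integral_nonneg fun v => mul_nonneg (sq_nonneg _) (th_nonneg _)) c0_pos.le

lemma td_mom {δ : ℝ} (hδ : 0 < δ) : ∫ u, u ^ 2 * td δ u = δ ^ 2 * M2 := by
  have h1 := Measure.integral_comp_div (fun v : ℝ => v ^ 2 * th v * (δ / c0)) δ
  have h2 : (fun u => u ^ 2 * td δ u) =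
      fun u => (fun v : ℝ => v ^ 2 * th v * (δ / c0)) (u / δ) := by
    funext u
    unfold td
    have := c0_pos.ne'
    have := hδ.ne'
    field_simp
  rw [h2, h1, integral_mul_const, abs_of_pos hδ, smul_eq_mul]
  unfold M2
  ring

/-! ### the interval -/

noncomputable def iv (a b : ℝ) : ℝ → ℂ := (Icc a b).indicator fun _ => (1 : ℂ)

lemma iv_int (a b : ℝ) : Integrable (iv a b) := by
  unfold iv
  rw [integrable_indicator_iff measurableSet_Icc]
  exact (integrable_const _ : Integrable (fun _ : ℝ => (1 : ℂ)) (volume.restrict (Icc a b)))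

lemma iv_cd (a b : ℝ) : ContDiff ℝ ∞ (𝓕 (iv a b)) := by
  apply Real.contDiff_fourier (N := ⊤)
  intro n _
  have h1 : (fun v : ℝ => ‖v‖ ^ n * ‖iv a b v‖) = (Icc a b).indicator fun v => ‖v‖ ^ n := by
    funext v
    unfold iv
    by_cases hv : v ∈ Icc a b
    · rw [indicator_of_mem hv, indicator_of_mem hv]
      simp
    · rw [indicator_of_notMem hv, indicator_of_notMem hv]
      simp
  rw [h1, integrable_indicator_iff measurableSet_Icc]
  exact (continuous_norm.pow n).continuousOn.integrableOn_Icc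

lemma iv_zero {a b : ℝ} (h : a ≤ b) : 𝓕 (iv a b) 0 = ((b - a : ℝ) : ℂ) := by
  rw [Real.fourier_real_eq_integral_exp_smul]
  simp only [mul_zero, Complex.ofReal_zero, zero_mul, Complex.exp_zero, one_smul]
  unfold iv
  rw [integral_indicator measurableSet_Icc]
  simp [h]

/-- the test function. -/
noncomputable def gg (a b δ ξ : ℝ) : ℂ := 𝓕 (iv a b) ξ * Gd δ ξ

noncomputable def GS {δ : ℝ} (hδ : 0 < δ) : 𝓢(ℝ, ℂ) := (Gd_cs hδ).toSchwartzMap (Gd_cd δ)

lemma GS_inv {δ : ℝ} (hδ : 0 < δ) : T (Gd δ) = ((𝓕⁻ (GS hδ) : 𝓢(ℝ, ℂ)) : ℝ → ℂ) := by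
  funext u
  rw [T_eq, SchwartzMap.fourierInv_coe]
  rfl

lemma F_T_Gd {δ : ℝ} (hδ : 0 < δ) : 𝓕 (T (Gd δ)) = Gd δ := by
  rw [GS_inv hδ, ← SchwartzMap.fourier_coe]
  have h1 : 𝓕 (𝓕⁻ (GS hδ)) = GS hδ := by simp
  rw [h1]
  rfl

lemma T_gg {a b δ : ℝ} (hδ : 0 < δ) (t : ℝ) :
    T (gg a b δ) t = ((∫ s in Icc a b, td δ (t - s) : ℝ) : ℂ) := by
  have hTi : Integrable (T (Gd δ)) := by
    rw [GS_inv hδ]
    exact (𝓕⁻ (GS hδ) : 𝓢(ℝ, ℂ)).integrable
  have hTc : Continuous (T (Gd δ)) := by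
    rw [GS_inv hδ]
    exact (𝓕⁻ (GS hδ) : 𝓢(ℝ, ℂ)).continuous
  have hTb : BddAbove (range fun x => ‖T (Gd δ) x‖) := by
    rw [GS_inv hδ]
    refine ⟨SchwartzMap.seminorm ℝ 0 0 (𝓕⁻ (GS hδ) : 𝓢(ℝ, ℂ)), ?_⟩
    rintro x ⟨y, rfl⟩
    exact SchwartzMap.norm_le_seminorm ℝ (𝓕⁻ (GS hδ) : 𝓢(ℝ, ℂ)) y
  set Ψ : ℝ → ℂ := iv a b ⋆[ContinuousLinearMap.mul ℂ ℂ] (T (Gd δ)) with hΨ
  have hF : 𝓕 Ψ = gg a b δ := by
    funext ξ
    rw [hΨ, Real.fourier_mul_convolution_eq (iv_int a b) hTi, F_T_Gd hδ]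
    rfl
  have hΨc : Continuous Ψ :=
    BddAbove.continuous_convolution_right_of_integrable _ hTb (iv_int a b) hTc
  have hΨi : Integrable Ψ := (iv_int a b).integrable_convolution _ hTi
  have hgi : Integrable (gg a b δ) := by
    have h1 : Continuous (gg a b δ) :=
      ((iv_cd a b).continuous).mul (Gd_cd δ).continuous
    exact h1.integrable_of_hasCompactSupport (Gd_cs hδ).mul_left
  rw [T_eq, ← hF, hΨc.fourierInv_fourier_eq hΨi (by rw [hF]; exact hgi), hΨ, convolution_def]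
  have h2 : (fun s => (ContinuousLinearMap.mul ℂ ℂ) (iv a b s) (T (Gd δ) (t - s))) =
      (Icc a b).indicator fun s => ((td δ (t - s) : ℝ) : ℂ) := by
    funext s
    rw [ContinuousLinearMap.mul_apply', T_Gd hδ]
    unfold iv
    by_cases hs : s ∈ Icc a b
    · rw [indicator_of_mem hs, indicator_of_mem hs, one_mul]
    · rw [indicator_of_notMem hs, indicator_of_notMem hs, zero_mul]
  rw [h2, integral_indicator measurableSet_Icc]
  exact integral_ofReal

theorem t_KER : S_KER := by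
  intro p q η hpq hη hη1
  set a : ℝ := p - η / 2 with ha
  set b : ℝ := q + η / 2 with hb
  set Mx : ℝ := |a| + |b| with hMx
  set C : ℝ := (1 + 2 * Mx ^ 2) * (4 / η ^ 2) + 2 with hC
  have hC0 : 0 < C := by positivity
  have hM2 := M2_nonneg
  set δ : ℝ := min 1 (η / (C * (M2 + 1))) with hδd
  have hδ : 0 < δ := lt_min one_pos (by positivity)
  have hδ1 : δ ≤ 1 := min_le_left _ _
  have hδ2 : δ ≤ η / (C * (M2 + 1)) := min_le_right _ _
  have hδC : C * (δ ^ 2 * M2) ≤ η := by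
    rw [le_div_iff₀ (by positivity)] at hδ2
    have h1 : δ ^ 2 ≤ δ := by nlinarith
    have h2 : C * (δ ^ 2 * M2) ≤ C * (δ * M2) :=
      mul_le_mul_of_nonneg_left (mul_le_mul_of_nonneg_right h1 hM2) hC0.le
    nlinarith [mul_pos hδ hC0]
  have hi0 : ∀ t : ℝ, Integrable (fun s => td δ (t - s)) := fun t => (td_int0 hδ).comp_sub_left t
  have hi2 : ∀ t : ℝ, Integrable (fun s => (t - s) ^ 2 * td δ (t - s)) := fun t =>
    (td_int2 hδ).comp_sub_left t
  have hm0 : ∀ t : ℝ, ∫ s, td δ (t - s) = 1 := fun t => by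
    rw [integral_sub_left_eq_self (fun u => td δ u) volume t]
    exact td_mass hδ
  have hm2 : ∀ t : ℝ, ∫ s, (t - s) ^ 2 * td δ (t - s) = δ ^ 2 * M2 := fun t => by
    rw [integral_sub_left_eq_self (fun u => u ^ 2 * td δ u) volume t]
    exact td_mom hδ
  refine ⟨gg a b δ, ⟨(iv_cd a b).mul (Gd_cd δ), (Gd_cs hδ).mul_left⟩, ?_, ?_, ?_, ?_⟩
  · intro t
    rw [T_gg hδ, Complex.ofReal_im, Complex.ofReal_re]
    refine ⟨rfl, integral_nonneg fun s => td_nonneg hδ _, ?_⟩
    rw [← hm0 t]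
    exact setIntegral_le_integral (hi0 t) (ae_of_all _ fun s => td_nonneg hδ _)
  · intro t ht
    rw [T_gg hδ, Complex.ofReal_re]
    have h1 := integral_add_compl (measurableSet_Icc (a := a) (b := b)) (hi0 t)
    rw [hm0 t] at h1
    have h2 : ∫ s in (Icc a b)ᶜ, td δ (t - s) ≤
        ∫ s in (Icc a b)ᶜ, C * ((t - s) ^ 2 * td δ (t - s)) := by
      apply setIntegral_mono_on (hi0 t).integrableOn ((hi2 t).const_mul C).integrableOn
        measurableSet_Icc.compl
      intro s hs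
      have h3 : (η / 2) ^ 2 ≤ (t - s) ^ 2 := by
        rw [mem_compl_iff, mem_Icc, not_and_or, not_le, not_le] at hs
        obtain ⟨ht1, ht2⟩ := ht
        rcases hs with hs | hs
        · have : η / 2 ≤ t - s := by linarith
          nlinarith
        · have : η / 2 ≤ s - t := by linarith
          nlinarith
      have h4 : 1 ≤ C * (t - s) ^ 2 := by
        have h5 : (4 / η ^ 2) * (η / 2) ^ 2 = 1 := by
          field_simp
          norm_num
        have h6 : 4 / η ^ 2 ≤ C := by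
          have : 0 ≤ 2 * Mx ^ 2 * (4 / η ^ 2) := by positivity
          rw [hC]
          nlinarith
        calc (1 : ℝ) = (4 / η ^ 2) * (η / 2) ^ 2 := h5.symm
          _ ≤ C * (t - s) ^ 2 := mul_le_mul h6 h3 (by positivity) hC0.le
      have := td_nonneg hδ (t - s)
      nlinarith
    have h3 : ∫ s in (Icc a b)ᶜ, C * ((t - s) ^ 2 * td δ (t - s)) ≤
        ∫ s, C * ((t - s) ^ 2 * td δ (t - s)) :=
      setIntegral_le_integral ((hi2 t).const_mul C) (ae_of_all _ fun s =>
        mul_nonneg hC0.le (mul_nonneg (sq_nonneg _) (td_nonneg hδ _)))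
    have h4 : ∫ s, C * ((t - s) ^ 2 * td δ (t - s)) = C * (δ ^ 2 * M2) := by
      rw [integral_const_mul, hm2 t]
    rw [h4] at h3
    linarith
  · have h1 : gg a b δ 0 = ((b - a : ℝ) : ℂ) := by
      unfold gg Gd
      rw [iv_zero (by rw [ha, hb]; linarith), mul_zero, k0_zero, div_self, mul_one]
      exact_mod_cast c0_pos.ne'
    rw [h1, ← Complex.ofReal_sub, Complex.norm_real, Real.norm_eq_abs]
    have : b - a - (q - p) = η := by
      rw [ha, hb]
      ring
    rw [this, abs_of_pos hη]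
  · intro t ht
    rw [T_gg hδ, Complex.ofReal_re]
    have h1t : 0 < 1 + t ^ 2 := by positivity
    have h2 : ∫ s in Icc a b, td δ (t - s) ≤
        ∫ s in Icc a b, C / (1 + t ^ 2) * ((t - s) ^ 2 * td δ (t - s)) := by
      apply setIntegral_mono_on (hi0 t).integrableOn ((hi2 t).const_mul _).integrableOn
        measurableSet_Icc
      intro s hs
      have h3 : (η / 2) ^ 2 ≤ (t - s) ^ 2 := by
        rw [mem_Icc, not_and_or, not_le, not_le] at ht
        obtain ⟨hs1, hs2⟩ := hs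
        rcases ht with ht | ht
        · have : η / 2 ≤ s - t := by linarith
          nlinarith
        · have : η / 2 ≤ t - s := by linarith
          nlinarith
      have h4 : 1 + t ^ 2 ≤ C * (t - s) ^ 2 := by
        have h5 : |s| ≤ Mx := by
          rw [hMx, abs_le]
          have := neg_abs_le a
          have := le_abs_self b
          have := abs_nonneg a
          have := abs_nonneg b
          constructor
          · linarith [hs.1]
          · linarith [hs.2]
        have h6 : t ^ 2 ≤ 2 * Mx ^ 2 + 2 * (t - s) ^ 2 := by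
          have h7 : s ^ 2 ≤ Mx ^ 2 := by
            rw [← sq_abs s]
            exact pow_le_pow_left₀ (abs_nonneg _) h5 2
          nlinarith [sq_nonneg (t - 2 * s)]
        have h8 : 1 ≤ (4 / η ^ 2) * (t - s) ^ 2 := by
          have h5 : (4 / η ^ 2) * (η / 2) ^ 2 = 1 := by
            field_simp
            norm_num
          rw [← h5]
          exact mul_le_mul_of_nonneg_left h3 (by positivity)
        have h9 : 0 ≤ 1 + 2 * Mx ^ 2 := by positivity
        have h10 := mul_le_mul_of_nonneg_left h8 h9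
        rw [hC]
        nlinarith
      have h5 : 1 ≤ C / (1 + t ^ 2) * (t - s) ^ 2 := by
        rw [div_mul_eq_mul_div, le_div_iff₀ h1t]
        linarith
      have := td_nonneg hδ (t - s)
      nlinarith
    have h3 : ∫ s in Icc a b, C / (1 + t ^ 2) * ((t - s) ^ 2 * td δ (t - s)) ≤
        ∫ s, C / (1 + t ^ 2) * ((t - s) ^ 2 * td δ (t - s)) :=
      setIntegral_le_integral ((hi2 t).const_mul _) (ae_of_all _ fun s =>
        mul_nonneg (by positivity) (mul_nonneg (sq_nonneg _) (td_nonneg hδ _)))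
    have h4 : ∫ s, C / (1 + t ^ 2) * ((t - s) ^ 2 * td δ (t - s)) =
        C / (1 + t ^ 2) * (δ ^ 2 * M2) := by
      rw [integral_const_mul, hm2 t]
    rw [h4] at h3
    refine (h2.trans h3).trans ?_
    rw [div_mul_eq_mul_div]
    exact div_le_div_of_nonneg_right hδC h1t.le

end Run7.h594.BC
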