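import Pool.Agent.Run7.h991.BC.Iface

/-!
# Piece MK of MP_9b3711_an: the kernel inequality (helper594)
-/

set_option autoImplicit false

open MeasureTheory
open scoped ENNReal

namespace Pool.Agent.Run7.h594.BC

open Run7.h991.BC

theorem lint_smul {n : ℕ} {s : ℝ} (hs : 0 < s) (f : E n → ℝ≥0∞) :
    ∫⁻ x, f x = ENNReal.ofReal (s ^ n) * ∫⁻ x, f (s • x) := by
  have h1 : ∫⁻ x, f (s • x) =
      ∫⁻ x, f x ∂(Measure.map (fun x : E n => s • x) volume) := by
    have := lintegral_map_equiv (μ := (volume : Measure (E n))) f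
      (Homeomorph.smulOfNeZero s hs.ne').toMeasurableEquiv
    exact this.symm
  rw [h1, Measure.map_addHaar_smul volume hs.ne', lintegral_smul_measure, smul_eq_mul,
    ← mul_assoc, ← ENNReal.ofReal_mul (by positivity), finrank_euclideanSpace, Fintype.card_fin,
    abs_of_pos (by positivity), mul_inv_cancel₀ (by positivity), ENNReal.ofReal_one, one_mul]

theorem ker_pt (n : ℕ) (L s a b c : ℝ) (hL : (n : ℝ) < L) (hs : 1 ≤ s) (ha : 0 ≤ a) (hb : 0 ≤ b)
    (hc : 0 ≤ c) (h : a ≤ b + c) :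
    s ^ n * (1 + s * b) ^ (-L) * (1 + c) ^ (-L) ≤
      4 ^ L * (1 + a) ^ (-L) * (s ^ n * (1 + s * b) ^ (-L) + (1 + c) ^ (-L)) := by
  have hn : (0 : ℝ) ≤ n := Nat.cast_nonneg n
  have hL0 : 0 < L := lt_of_le_of_lt hn hL
  have hs0 : 0 < s := lt_of_lt_of_le one_pos hs
  have hX : 0 ≤ s ^ n * (1 + s * b) ^ (-L) := by positivity
  have hY : 0 ≤ (1 + c) ^ (-L) := by positivity
  have hZ : 0 ≤ 4 ^ L * (1 + a) ^ (-L) := by positivity
  have hquarter : ∀ y : ℝ, 0 < y → (1 + a) / 4 ≤ y → y ^ (-L) ≤ 4 ^ L * (1 + a) ^ (-L) := by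
    intro y hy hay
    have h1 : y ^ (-L) ≤ ((1 + a) / 4) ^ (-L) :=
      Real.rpow_le_rpow_of_nonpos (by positivity) hay (by linarith)
    refine h1.trans (le_of_eq ?_)
    rw [Real.div_rpow (by positivity) (by norm_num), Real.rpow_neg (by norm_num : (0 : ℝ) ≤ 4) L,
      div_inv_eq_mul, mul_comm]
  by_cases hcase : 1 + a ≤ 4 * (1 + c)
  · have h1 : (1 + c) ^ (-L) ≤ 4 ^ L * (1 + a) ^ (-L) := hquarter _ (by positivity) (by linarith)
    calc s ^ n * (1 + s * b) ^ (-L) * (1 + c) ^ (-L)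
        ≤ s ^ n * (1 + s * b) ^ (-L) * (4 ^ L * (1 + a) ^ (-L)) :=
          mul_le_mul_of_nonneg_left h1 hX
      _ = 4 ^ L * (1 + a) ^ (-L) * (s ^ n * (1 + s * b) ^ (-L)) := by ring
      _ ≤ _ := mul_le_mul_of_nonneg_left (by linarith) hZ
  · push Not at hcase
    have h1 : s * ((1 + a) / 4) ≤ 1 + s * b := by
      have h2 : (1 + a) / 4 ≤ b := by linarith
      nlinarith
    have h3 : s ^ n * (1 + s * b) ^ (-L) ≤ 4 ^ L * (1 + a) ^ (-L) := by
      have h4 : (1 + s * b) ^ (-L) ≤ (s * ((1 + a) / 4)) ^ (-L) :=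
        Real.rpow_le_rpow_of_nonpos (by positivity) h1 (by linarith)
      have h5 : (s * ((1 + a) / 4)) ^ (-L) = s ^ (-L) * ((1 + a) / 4) ^ (-L) :=
        Real.mul_rpow (by positivity) (by positivity)
      have h6 : s ^ n * s ^ (-L) ≤ 1 := by
        rw [← Real.rpow_natCast, ← Real.rpow_add hs0]
        exact Real.rpow_le_one_of_one_le_of_nonpos hs (by linarith)
      have h7 : ((1 + a) / 4) ^ (-L) ≤ 4 ^ L * (1 + a) ^ (-L) :=
        hquarter _ (by positivity) le_rfl
      calc s ^ n * (1 + s * b) ^ (-L) ≤ s ^ n * (s ^ (-L) * ((1 + a) / 4) ^ (-L)) := by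
            rw [← h5]
            exact mul_le_mul_of_nonneg_left h4 (by positivity)
        _ = (s ^ n * s ^ (-L)) * ((1 + a) / 4) ^ (-L) := by ring
        _ ≤ 1 * ((1 + a) / 4) ^ (-L) := mul_le_mul_of_nonneg_right h6 (by positivity)
        _ ≤ _ := by rw [one_mul]; exact h7
    calc s ^ n * (1 + s * b) ^ (-L) * (1 + c) ^ (-L)
        ≤ 4 ^ L * (1 + a) ^ (-L) * (1 + c) ^ (-L) := mul_le_mul_of_nonneg_right h3 hY
      _ ≤ _ := mul_le_mul_of_nonneg_left (by linarith) hZ

theorem kap_nonneg {n : ℕ} (L : ℝ) (w : E n) : 0 ≤ kap L w := by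
  unfold kap; positivity

theorem kap_meas {n : ℕ} (L : ℝ) : Measurable (fun w : E n => ENNReal.ofReal (kap L w)) := by
  unfold kap
  fun_prop

theorem kap_fin {n : ℕ} (L : ℝ) (hL : (n : ℝ) < L) :
    ∫⁻ w : E n, ENNReal.ofReal (kap L w) < ⊤ := by
  have h1 : Integrable (fun x : E n => (1 + ‖x‖) ^ (-L)) volume :=
    integrable_one_add_norm (by rw [finrank_euclideanSpace, Fintype.card_fin]; exact hL)
  exact h1.lintegral_lt_top

/-- the kernel inequality -/
theorem ker_conv {n : ℕ} (L : ℝ) (hL : (n : ℝ) < L) {s : ℝ} (hs : 1 ≤ s) (z : E n) :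
    ∫⁻ u, ENNReal.ofReal (s ^ n * kap L (s • u)) * ENNReal.ofReal (kap L (z - u)) ≤
      (ENNReal.ofReal (4 ^ L) * (2 * ∫⁻ w : E n, ENNReal.ofReal (kap L w))) *
        ENNReal.ofReal (kap L z) := by
  have hs0 : 0 < s := lt_of_lt_of_le one_pos hs
  have h1 : ∀ u : E n, ENNReal.ofReal (s ^ n * kap L (s • u)) * ENNReal.ofReal (kap L (z - u)) ≤
      ENNReal.ofReal (4 ^ L * kap L z) * (ENNReal.ofReal (s ^ n * kap L (s • u)) +
        ENNReal.ofReal (kap L (z - u))) := by
    intro u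
    have h2 := ker_pt n L s ‖z‖ ‖u‖ ‖z - u‖ hL hs (norm_nonneg _) (norm_nonneg _) (norm_nonneg _)
      (by
        have h3 : z = u + (z - u) := by abel
        calc ‖z‖ = ‖u + (z - u)‖ := by rw [← h3]
          _ ≤ _ := norm_add_le _ _)
    have hks : kap L (s • u) = (1 + s * ‖u‖) ^ (-L) := by
      unfold kap
      rw [norm_smul, Real.norm_of_nonneg hs0.le]
    rw [← ENNReal.ofReal_mul (mul_nonneg (by positivity) (kap_nonneg _ _)),
      ← ENNReal.ofReal_add (mul_nonneg (by positivity) (kap_nonneg _ _)) (kap_nonneg _ _),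
      ← ENNReal.ofReal_mul (mul_nonneg (by positivity) (kap_nonneg _ _))]
    apply ENNReal.ofReal_le_ofReal
    rw [hks]
    exact h2
  have hm1 : Measurable fun u : E n => ENNReal.ofReal (s ^ n * kap L (s • u)) := by
    unfold kap
    fun_prop
  have h4 : ∫⁻ u : E n, ENNReal.ofReal (s ^ n * kap L (s • u)) =
      ∫⁻ w : E n, ENNReal.ofReal (kap L w) := by
    rw [lint_smul hs0 (fun w : E n => ENNReal.ofReal (kap L w)),
      ← lintegral_const_mul' _ _ ENNReal.ofReal_ne_top]
    refine lintegral_congr fun u => ?_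
    rw [← ENNReal.ofReal_mul (by positivity)]
  have h5 : ∫⁻ u : E n, ENNReal.ofReal (kap L (z - u)) =
      ∫⁻ w : E n, ENNReal.ofReal (kap L w) :=
    lintegral_sub_left_eq_self (fun w => ENNReal.ofReal (kap L w)) z
  calc ∫⁻ u, ENNReal.ofReal (s ^ n * kap L (s • u)) * ENNReal.ofReal (kap L (z - u))
      ≤ ∫⁻ u, ENNReal.ofReal (4 ^ L * kap L z) * (ENNReal.ofReal (s ^ n * kap L (s • u)) +
        ENNReal.ofReal (kap L (z - u))) := lintegral_mono h1
    _ = ENNReal.ofReal (4 ^ L * kap L z) * ((∫⁻ w : E n, ENNReal.ofReal (kap L w)) +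
        ∫⁻ w : E n, ENNReal.ofReal (kap L w)) := by
        rw [lintegral_const_mul' _ _ ENNReal.ofReal_ne_top, lintegral_add_left hm1, h4, h5]
    _ = _ := by
        rw [ENNReal.ofReal_mul (by positivity), two_mul]
        ring

theorem t_MK : S_MK := by
  intro n L hn1 hL
  refine ⟨ENNReal.ofReal (4 ^ L) * (2 * ∫⁻ w : E n, ENNReal.ofReal (kap L w)),
    ENNReal.mul_ne_top ENNReal.ofReal_ne_top (ENNReal.mul_ne_top (by norm_num) (kap_fin L hL).ne),
    ?_⟩
  intro i j hij f hf x
  have hkm : Measurable (fun w : E n => kap L w) := by unfold kap; fun_prop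
  set κ : E n → ℝ≥0∞ := fun w => ENNReal.ofReal (kap L w) with hκ
  have hκm : Measurable κ := kap_meas L
  have key1 : T L i (T L j f) x ≤ ENNReal.ofReal (4 ^ L) * (2 * ∫⁻ w : E n, κ w) * T L i f x := by
    set s : ℝ := (2 : ℝ) ^ (j - i) with hsdef
    have hs : 1 ≤ s := one_le_zpow₀ (by norm_num) (by omega)
    have hs0 : 0 < s := lt_of_lt_of_le one_pos hs
    set t : ℝ := (2 : ℝ) ^ (-i) with htdef
    have hst : (2 : ℝ) ^ (-j) * s = t := by
      rw [hsdef, htdef, ← zpow_add₀ (by norm_num)]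
      congr 1
      ring
    have e1 : ∀ w : E n, T L j f (x - t • w) =
        ∫⁻ u, f (x - t • (w + u)) * ENNReal.ofReal (s ^ n * kap L (s • u)) := by
      intro w
      unfold T
      rw [lint_smul hs0, ← lintegral_const_mul]
      · refine lintegral_congr fun u => ?_
        rw [smul_smul, hst, sub_sub, ← smul_add, ENNReal.ofReal_mul (by positivity)]
        ring
      · refine (hf.comp (by fun_prop)).mul ?_
        exact hκm.comp (measurable_const_smul s)
    have e2 : T L i (T L j f) x = ∫⁻ w, ∫⁻ u, f (x - t • (w + u)) *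
        (ENNReal.ofReal (s ^ n * kap L (s • u)) * κ w) := by
      conv_lhs => unfold T
      refine lintegral_congr fun w => ?_
      have h1 : (∫⁻ v, f (x - (2 : ℝ) ^ (-i) • w - (2 : ℝ) ^ (-j) • v) * ENNReal.ofReal (kap L v)) =
        T L j f (x - t • w) := rfl
      rw [h1, e1, ← lintegral_mul_const' _ _ ENNReal.ofReal_ne_top]
      refine lintegral_congr fun u => ?_
      rw [mul_assoc]
    have hms : Measurable fun u : E n => ENNReal.ofReal (s ^ n * kap L (s • u)) := by
      unfold kap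
      fun_prop
    have hm2 : Measurable (Function.uncurry fun (w u : E n) => f (x - t • (w + u)) *
        (ENNReal.ofReal (s ^ n * kap L (s • u)) * κ w)) := by
      refine (hf.comp (by fun_prop)).mul ((hms.comp measurable_snd).mul (hκm.comp measurable_fst))
    have e3 : T L i (T L j f) x = ∫⁻ u, ∫⁻ w, f (x - t • (w + u)) *
        (ENNReal.ofReal (s ^ n * kap L (s • u)) * κ w) := by
      rw [e2, lintegral_lintegral_swap hm2.aemeasurable]
    have e4 : T L i (T L j f) x = ∫⁻ u, ∫⁻ z, f (x - t • z) *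
        (ENNReal.ofReal (s ^ n * kap L (s • u)) * κ (z - u)) := by
      rw [e3]
      refine lintegral_congr fun u => ?_
      rw [← lintegral_sub_right_eq_self _ u]
      refine lintegral_congr fun z => ?_
      rw [sub_add_cancel]
    have hm3 : Measurable (Function.uncurry fun (u z : E n) => f (x - t • z) *
        (ENNReal.ofReal (s ^ n * kap L (s • u)) * κ (z - u))) := by
      refine (hf.comp (by fun_prop)).mul ((hms.comp measurable_fst).mul (hκm.comp (by fun_prop)))
    have e5 : T L i (T L j f) x = ∫⁻ z, f (x - t • z) *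
        ∫⁻ u, (ENNReal.ofReal (s ^ n * kap L (s • u)) * κ (z - u)) := by
      rw [e4, lintegral_lintegral_swap hm3.aemeasurable]
      refine lintegral_congr fun z => ?_
      rw [lintegral_const_mul]
      exact hms.mul (hκm.comp (by fun_prop))
    rw [e5]
    calc ∫⁻ z, f (x - t • z) * ∫⁻ u, (ENNReal.ofReal (s ^ n * kap L (s • u)) * κ (z - u))
        ≤ ∫⁻ z, f (x - t • z) * ((ENNReal.ofReal (4 ^ L) * (2 * ∫⁻ w : E n, κ w)) * κ z) :=
          lintegral_mono fun z => mul_le_mul_right (ker_conv L hL hs z) _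
      _ = ∫⁻ z, (ENNReal.ofReal (4 ^ L) * (2 * ∫⁻ w : E n, κ w)) * (f (x - t • z) * κ z) := by
          refine lintegral_congr fun z => ?_
          ring
      _ = (ENNReal.ofReal (4 ^ L) * (2 * ∫⁻ w : E n, κ w)) * T L i f x := by
          rw [lintegral_const_mul]
          · rfl
          · exact (hf.comp (by fun_prop)).mul hκm
  refine ⟨key1, ?_⟩
  have key2 : T L j (T L i f) x = T L i (T L j f) x := by
    have e1 : ∀ a b : ℤ, T L a (T L b f) x = ∫⁻ w, ∫⁻ v,
        f (x - (2 : ℝ) ^ (-a) • w - (2 : ℝ) ^ (-b) • v) * (κ v * κ w) := by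
      intro a b
      unfold T
      refine lintegral_congr fun w => ?_
      rw [← lintegral_mul_const' _ _ ENNReal.ofReal_ne_top]
      refine lintegral_congr fun v => ?_
      rw [mul_assoc]
    rw [e1, e1, lintegral_lintegral_swap]
    · refine lintegral_congr fun w => lintegral_congr fun v => ?_
      rw [sub_right_comm, mul_comm (κ w)]
    · refine Measurable.aemeasurable ?_
      exact (hf.comp (by fun_prop)).mul ((hκm.comp measurable_snd).mul (hκm.comp measurable_fst))
  rw [key2]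
  exact key1

end Pool.Agent.Run7.h594.BC
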