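import Pool.Agent.Run7.h991.BC.Iface

/-!
# Piece MX of MP_9b3711_an: the maximal theorem (helper594)
-/

set_option autoImplicit false

open MeasureTheory
open scoped ENNReal NNReal

namespace Pool.Agent.Run7.h594.BC

open Run7.h991.BC

/-- measurable selection of the largest of finitely many functions -/
theorem sel {X : Type} [MeasurableSpace X] (g : ℕ → X → ℝ≥0∞) (hg : ∀ j, Measurable (g j))
    (J : ℕ) : ∃ e : ℕ → X → ℝ≥0∞, (∀ j, Measurable (e j)) ∧
      (∀ x, ∑ j ∈ Finset.range (J + 1), e j x ≤ 1) ∧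
      ∀ x, ∀ i ≤ J, g i x ≤ ∑ j ∈ Finset.range (J + 1), e j x * g j x := by
  classical
  induction J with
  | zero =>
    refine ⟨fun _ _ => 1, fun _ => measurable_const, fun x => by simp, fun x i hi => ?_⟩
    obtain rfl : i = 0 := by omega
    simp
  | succ J ih =>
    obtain ⟨e, hem, he1, he2⟩ := ih
    set A : Set X := {x | ∑ j ∈ Finset.range (J + 1), e j x * g j x < g (J + 1) x} with hA
    have hAm : MeasurableSet A := measurableSet_lt
      (Finset.measurable_sum _ fun j _ => (hem j).mul (hg j)) (hg (J + 1))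
    refine ⟨fun j x => if j ≤ J then (if x ∈ A then 0 else e j x) else (if x ∈ A then 1 else 0),
      fun j => ?_, fun x => ?_, fun x i hi => ?_⟩
    · by_cases hj : j ≤ J
      · simp only [hj, if_true]
        exact Measurable.ite hAm measurable_const (hem j)
      · simp only [hj, if_false]
        exact Measurable.ite hAm measurable_const measurable_const
    · rw [Finset.sum_range_succ]
      have h1 : ¬ (J + 1 ≤ J) := by omega
      simp only [h1, if_false]
      have h2 : ∀ j ∈ Finset.range (J + 1),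
          (if j ≤ J then (if x ∈ A then 0 else e j x) else (if x ∈ A then 1 else 0)) =
            (if x ∈ A then 0 else e j x) := by
        intro j hj
        rw [Finset.mem_range] at hj
        rw [if_pos (by omega)]
      rw [Finset.sum_congr rfl h2]
      by_cases hx : x ∈ A
      · simp [hx]
      · simp only [hx, if_false, add_zero]
        exact he1 x
    · rw [Finset.sum_range_succ]
      have h1 : ¬ (J + 1 ≤ J) := by omega
      simp only [h1, if_false]
      have h2 : ∀ j ∈ Finset.range (J + 1),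
          (if j ≤ J then (if x ∈ A then 0 else e j x) else (if x ∈ A then 1 else 0)) * g j x =
            (if x ∈ A then 0 else e j x) * g j x := by
        intro j hj
        rw [Finset.mem_range] at hj
        rw [if_pos (by omega)]
      rw [Finset.sum_congr rfl h2]
      by_cases hx : x ∈ A
      · simp only [hx, if_true, zero_mul, Finset.sum_const_zero, zero_add, one_mul]
        rcases Nat.lt_or_ge J i with h | h
        · obtain rfl : i = J + 1 := by omega
          exact le_rfl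
        · exact (he2 x i h).trans (le_of_lt hx)
      · simp only [hx, if_false, zero_mul, add_zero]
        rcases Nat.lt_or_ge J i with h | h
        · obtain rfl : i = J + 1 := by omega
          exact not_lt.1 hx
        · exact he2 x i h

/-- Cauchy--Schwarz -/
theorem cs {X : Type} [MeasurableSpace X] (μ : Measure X) {f g : X → ℝ≥0∞} (hf : Measurable f)
    (hg : Measurable g) : (∫⁻ x, f x * g x ∂μ) ^ 2 ≤ (∫⁻ x, f x ^ 2 ∂μ) * ∫⁻ x, g x ^ 2 ∂μ := by
  have h := ENNReal.lintegral_mul_le_Lp_mul_Lq μ (p := 2) (q := 2)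
    (Real.HolderConjugate.two_two) hf.aemeasurable hg.aemeasurable
  have h2 : ∀ a : ℝ≥0∞, (a ^ (1 / 2 : ℝ)) ^ 2 = a := by
    intro a
    rw [← ENNReal.rpow_natCast, ← ENNReal.rpow_mul]
    norm_num
  calc (∫⁻ x, f x * g x ∂μ) ^ 2
      ≤ ((∫⁻ a, f a ^ (2 : ℝ) ∂μ) ^ (1 / 2 : ℝ) * (∫⁻ a, g a ^ (2 : ℝ) ∂μ) ^ (1 / 2 : ℝ)) ^ 2 := by
        gcongr
        exact h
    _ = _ := by
        rw [mul_pow, h2, h2]
        simp only [ENNReal.rpow_two]

theorem T_mono {n : ℕ} (L : ℝ) (j : ℤ) {f g : E n → ℝ≥0∞} (h : ∀ y, f y ≤ g y) (x : E n) :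
    T L j f x ≤ T L j g x := by
  unfold T
  exact lintegral_mono fun w => mul_le_mul_left (h _) _

theorem T_sum {n : ℕ} (L : ℝ) (j : ℤ) (K : ℕ) (g : ℕ → E n → ℝ≥0∞) (hg : ∀ i, Measurable (g i))
    (x : E n) : ∑ i ∈ Finset.range K, T L j (g i) x =
      T L j (fun y => ∑ i ∈ Finset.range K, g i y) x := by
  unfold T
  rw [← lintegral_finsetSum]
  · refine lintegral_congr fun w => ?_
    rw [Finset.sum_mul]
  · intro i _
    refine ((hg i).comp (by fun_prop)).mul ?_
    unfold kap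
    fun_prop

section main

variable {n : ℕ} {L : ℝ} {C : ℝ≥0∞}

/-- the `T T^*` estimate -/
theorem tts (hTm : ∀ (j : ℤ) (f : E n → ℝ≥0∞), Measurable f → Measurable (T L j f))
    (hsym : ∀ (j : ℤ) (f g : E n → ℝ≥0∞), Measurable f → Measurable g →
      ∫⁻ x, T L j f x * g x = ∫⁻ x, f x * T L j g x)
    (hMK : ∀ i j : ℤ, i ≤ j → ∀ f : E n → ℝ≥0∞, Measurable f → ∀ x,
      T L i (T L j f) x ≤ C * T L i f x) (hC : C ≠ ⊤)
    (K : ℕ) (e : ℕ → E n → ℝ≥0∞) (hem : ∀ j, Measurable (e j))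
    (he : ∀ x, ∑ j ∈ Finset.range K, e j x ≤ 1) (h : E n → ℝ≥0∞) (hh : Measurable h) :
    ∫⁻ x, (∑ j ∈ Finset.range K, T L j (fun y => e j y * h y) x) ^ 2 ≤
      2 * C * ∫⁻ x, h x * ∑ j ∈ Finset.range K, e j x * T L j h x := by
  have hehm : ∀ j, Measurable fun y => e j y * h y := fun j => (hem j).mul hh
  have hTehm : ∀ (i : ℤ) (j : ℕ), Measurable (T L i fun y => e j y * h y) := fun i j =>
    hTm i _ (hehm j)
  set P : ℕ → ℕ → ℝ≥0∞ := fun i j => ∫⁻ x, (e i x * h x) * T L i (fun y => e j y * h y) x with hP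
  -- the basic estimate
  have hb : ∀ i j : ℕ, i ≤ j → ∫⁻ x, T L i (fun y => e i y * h y) x *
      T L j (fun y => e j y * h y) x ≤ C * P i j := by
    intro i j hij
    rw [hsym i _ _ (hehm i) (hTehm j j), hP, ← lintegral_const_mul' _ _ hC]
    refine lintegral_mono fun x => ?_
    calc e i x * h x * T L i (T L j fun y => e j y * h y) x
        ≤ e i x * h x * (C * T L i (fun y => e j y * h y) x) :=
          mul_le_mul_right (hMK i j (by exact_mod_cast hij) _ (hehm j) x) _
      _ = _ := by ring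
  have hb2 : ∀ i j : ℕ, ∫⁻ x, T L i (fun y => e i y * h y) x *
      T L j (fun y => e j y * h y) x ≤ C * (P i j + P j i) := by
    intro i j
    rcases le_total i j with hij | hij
    · refine (hb i j hij).trans ?_
      gcongr
      exact le_self_add
    · have h1 := hb j i hij
      have h2 : ∫⁻ x, T L i (fun y => e i y * h y) x * T L j (fun y => e j y * h y) x =
          ∫⁻ x, T L j (fun y => e j y * h y) x * T L i (fun y => e i y * h y) x :=
        lintegral_congr fun x => mul_comm _ _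
      rw [h2]
      refine h1.trans ?_
      gcongr
      exact le_add_self
  have hPs : ∀ i : ℕ, ∑ j ∈ Finset.range K, P i j ≤ ∫⁻ x, (e i x * h x) * T L i h x := by
    intro i
    rw [hP]
    simp only
    rw [← lintegral_finsetSum]
    · refine lintegral_mono fun x => ?_
      rw [← Finset.mul_sum, T_sum L i K _ hehm]
      refine mul_le_mul_right (T_mono L i (fun y => ?_) x) _
      rw [← Finset.sum_mul]
      calc (∑ j ∈ Finset.range K, e j y) * h y ≤ 1 * h y := mul_le_mul_left (he y) _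
        _ = h y := one_mul _
    · intro j _
      exact (hehm i).mul (hTehm i j)
  have hexp : ∫⁻ x, (∑ j ∈ Finset.range K, T L j (fun y => e j y * h y) x) ^ 2 =
      ∑ i ∈ Finset.range K, ∑ j ∈ Finset.range K, ∫⁻ x, T L i (fun y => e i y * h y) x *
        T L j (fun y => e j y * h y) x := by
    have h1 : ∀ x, (∑ j ∈ Finset.range K, T L j (fun y => e j y * h y) x) ^ 2 =
        ∑ i ∈ Finset.range K, ∑ j ∈ Finset.range K, T L i (fun y => e i y * h y) x *
        T L j (fun y => e j y * h y) x := by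
      intro x
      rw [sq, Finset.sum_mul_sum]
    rw [lintegral_congr h1, lintegral_finsetSum]
    · refine Finset.sum_congr rfl fun i _ => ?_
      rw [lintegral_finsetSum]
      intro j _
      exact (hTehm i i).mul (hTehm j j)
    · intro i _
      exact Finset.measurable_sum _ fun j _ => (hTehm i i).mul (hTehm j j)
  rw [hexp]
  calc ∑ i ∈ Finset.range K, ∑ j ∈ Finset.range K, ∫⁻ x, T L i (fun y => e i y * h y) x *
        T L j (fun y => e j y * h y) x
      ≤ ∑ i ∈ Finset.range K, ∑ j ∈ Finset.range K, C * (P i j + P j i) :=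
        Finset.sum_le_sum fun i _ => Finset.sum_le_sum fun j _ => hb2 i j
    _ = C * (∑ i ∈ Finset.range K, ∑ j ∈ Finset.range K, P i j +
          ∑ i ∈ Finset.range K, ∑ j ∈ Finset.range K, P j i) := by
        simp only [← Finset.mul_sum, ← Finset.sum_add_distrib]
    _ = 2 * C * ∑ i ∈ Finset.range K, ∑ j ∈ Finset.range K, P i j := by
        rw [Finset.sum_comm (f := fun i j => P j i)]
        ring
    _ ≤ 2 * C * ∑ i ∈ Finset.range K, ∫⁻ x, (e i x * h x) * T L i h x := by
        gcongr with i hi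
        exact hPs i
    _ = _ := by
        rw [← lintegral_finsetSum]
        · congr 1
          refine lintegral_congr fun x => ?_
          rw [Finset.mul_sum]
          refine Finset.sum_congr rfl fun j _ => ?_
          ring
        · intro j _
          exact (hehm j).mul (hTm j h hh)

/-- a set of real numbers closed under `B ↦ D √B` and under infima contains a number `≤ D ^ 2` -/
theorem inf_le (D : ℝ≥0) (S : Set ℝ≥0) (hinf : sInf S ∈ S)
    (hstep : ∀ B ∈ S, D * NNReal.sqrt B ∈ S) : sInf S ≤ D ^ 2 := by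
  have h1 : sInf S ≤ D * NNReal.sqrt (sInf S) := csInf_le (OrderBot.bddBelow S) (hstep _ hinf)
  set b := NNReal.sqrt (sInf S) with hb
  have h2 : sInf S = b ^ 2 := (NNReal.sq_sqrt _).symm
  rw [h2] at h1 ⊢
  rcases eq_or_ne b 0 with h0 | h0
  · rw [h0]
    simp
  · have h3 : b * b ≤ D * b := by rw [← sq]; exact h1
    have h4 : b ≤ D := le_of_mul_le_mul_right h3 (pos_iff_ne_zero.2 h0)
    gcongr

theorem sq_sum_le (K : ℕ) (a : ℕ → ℝ≥0∞) :
    (∑ j ∈ Finset.range K, a j) ^ 2 ≤ 2 * K * ∑ j ∈ Finset.range K, a j ^ 2 := by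
  have h1 : ∀ x y : ℝ≥0∞, x * y ≤ x ^ 2 + y ^ 2 := by
    intro x y
    rcases le_total x y with h | h
    · calc x * y ≤ y * y := mul_le_mul_left h y
        _ = y ^ 2 := (sq y).symm
        _ ≤ _ := le_add_self
    · calc x * y ≤ x * x := mul_le_mul_right h x
        _ = x ^ 2 := (sq x).symm
        _ ≤ _ := le_self_add
  calc (∑ j ∈ Finset.range K, a j) ^ 2
      = ∑ i ∈ Finset.range K, ∑ j ∈ Finset.range K, a i * a j := by rw [sq, Finset.sum_mul_sum]
    _ ≤ ∑ i ∈ Finset.range K, ∑ j ∈ Finset.range K, (a i ^ 2 + a j ^ 2) :=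
        Finset.sum_le_sum fun i _ => Finset.sum_le_sum fun j _ => h1 _ _
    _ = _ := by
        simp only [Finset.sum_add_distrib, Finset.sum_const, Finset.card_range, nsmul_eq_mul,
          ← Finset.mul_sum]
        ring

/-- the uniform bound for linearised maximal operators -/
theorem lin_bound (hTm : ∀ (j : ℤ) (f : E n → ℝ≥0∞), Measurable f → Measurable (T L j f))
    (hsym : ∀ (j : ℤ) (f g : E n → ℝ≥0∞), Measurable f → Measurable g →
      ∫⁻ x, T L j f x * g x = ∫⁻ x, f x * T L j g x)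
    {C2 : ℝ≥0∞} (hC2 : C2 ≠ ⊤) (hL2 : ∀ (j : ℤ) (f : E n → ℝ≥0∞), Measurable f →
      ∫⁻ x, (T L j f x) ^ 2 ≤ C2 * ∫⁻ x, (f x) ^ 2)
    (hMK : ∀ i j : ℤ, i ≤ j → ∀ f : E n → ℝ≥0∞, Measurable f → ∀ x,
      T L i (T L j f) x ≤ C * T L i f x) (hC : C ≠ ⊤)
    (K : ℕ) (e : ℕ → E n → ℝ≥0∞) (hem : ∀ j, Measurable (e j))
    (he : ∀ x, ∑ j ∈ Finset.range K, e j x ≤ 1) (f : E n → ℝ≥0∞) (hf : Measurable f)
    (hF : ∫⁻ x, f x ^ 2 ≠ ⊤) :
    ∫⁻ x, (∑ j ∈ Finset.range K, e j x * T L j f x) ^ 2 ≤ (2 * C) ^ 2 * ∫⁻ x, f x ^ 2 := by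
  set U : (E n → ℝ≥0∞) → E n → ℝ≥0∞ := fun f x => ∑ j ∈ Finset.range K, e j x * T L j f x with hU
  have hUm : ∀ f : E n → ℝ≥0∞, Measurable f → Measurable (U f) := fun f hf =>
    Finset.measurable_sum _ fun j _ => (hem j).mul (hTm j f hf)
  have he1 : ∀ j ∈ Finset.range K, ∀ x, e j x ≤ 1 := fun j hj x =>
    (Finset.single_le_sum (f := fun j => e j x) (fun _ _ => zero_le) hj).trans (he x)
  set S : Set ℝ≥0 := {B | ∀ f : E n → ℝ≥0∞, Measurable f → ∫⁻ x, f x ^ 2 ≠ ⊤ →
    ∫⁻ x, U f x ^ 2 ≤ B * ∫⁻ x, f x ^ 2} with hS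
  have h2C : 2 * C ≠ ⊤ := ENNReal.mul_ne_top (by norm_num) hC
  set D : ℝ≥0 := (2 * C).toNNReal with hD
  have hD2 : (D : ℝ≥0∞) = 2 * C := ENNReal.coe_toNNReal h2C
  -- a finite bound
  have hne : S.Nonempty := by
    have hB : 2 * (K : ℝ≥0∞) * (K * C2) ≠ ⊤ :=
      ENNReal.mul_ne_top (ENNReal.mul_ne_top (by norm_num) (ENNReal.natCast_ne_top K))
        (ENNReal.mul_ne_top (ENNReal.natCast_ne_top K) hC2)
    refine ⟨(2 * (K : ℝ≥0∞) * (K * C2)).toNNReal, fun f hf _ => ?_⟩
    rw [ENNReal.coe_toNNReal hB]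
    calc ∫⁻ x, U f x ^ 2
        ≤ ∫⁻ x, 2 * (K : ℝ≥0∞) * ∑ j ∈ Finset.range K, T L j f x ^ 2 := by
          refine lintegral_mono fun x => ?_
          refine le_trans ?_ (sq_sum_le K fun j => T L j f x)
          gcongr
          rw [hU]
          refine Finset.sum_le_sum fun j hj => ?_
          calc e j x * T L j f x ≤ 1 * T L j f x := mul_le_mul_left (he1 j hj x) _
            _ = _ := one_mul _
      _ = 2 * (K : ℝ≥0∞) * ∑ j ∈ Finset.range K, ∫⁻ x, T L j f x ^ 2 := by
          rw [lintegral_const_mul' _ _ (ENNReal.mul_ne_top (by norm_num)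
            (ENNReal.natCast_ne_top K)), lintegral_finsetSum]
          exact fun j _ => (hTm j f hf).pow_const 2
      _ ≤ 2 * (K : ℝ≥0∞) * ∑ _j ∈ Finset.range K, C2 * ∫⁻ x, f x ^ 2 := by
          gcongr with j hj
          exact hL2 j f hf
      _ = _ := by
          rw [Finset.sum_const, Finset.card_range, nsmul_eq_mul]
          ring
  have hinf : sInf S ∈ S := by
    intro f hf hF
    obtain ⟨B₀, hB₀⟩ := hne
    have h0 := hB₀ f hf hF
    rcases eq_or_ne (∫⁻ x, f x ^ 2) 0 with hz | hz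
    · rw [hz, mul_zero] at h0 ⊢
      exact h0
    · have hA : ∫⁻ x, U f x ^ 2 ≠ ⊤ :=
        ne_top_of_le_ne_top (ENNReal.mul_ne_top ENNReal.coe_ne_top hF) h0
      rw [← ENNReal.div_le_iff hz hF]
      have hq : (∫⁻ x, U f x ^ 2) / (∫⁻ x, f x ^ 2) ≠ ⊤ := ENNReal.div_ne_top hA hz
      rw [← ENNReal.coe_toNNReal hq, ENNReal.coe_le_coe]
      refine le_csInf ⟨B₀, hB₀⟩ fun B hB => ?_
      rw [← ENNReal.coe_le_coe, ENNReal.coe_toNNReal hq, ENNReal.div_le_iff hz hF]
      exact hB f hf hF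
  have hstep : ∀ B ∈ S, D * NNReal.sqrt B ∈ S := by
    intro B hB f hf hF
    have hhm := hUm f hf
    set h : E n → ℝ≥0∞ := U f with hh
    set A : ℝ≥0∞ := ∫⁻ x, h x ^ 2 with hA
    have hAt : A ≠ ⊤ :=
      ne_top_of_le_ne_top (ENNReal.mul_ne_top ENNReal.coe_ne_top hF) (hB f hf hF)
    have hehm : ∀ j, Measurable fun y => e j y * h y := fun j => (hem j).mul hhm
    have h1 : A = ∫⁻ x, f x * ∑ j ∈ Finset.range K, T L j (fun y => e j y * h y) x := by
      have e1 : A = ∫⁻ x, ∑ j ∈ Finset.range K, T L j f x * (e j x * h x) := by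
        rw [hA]
        refine lintegral_congr fun x => ?_
        rw [sq]
        nth_rewrite 1 [hh, hU]
        rw [Finset.sum_mul]
        refine Finset.sum_congr rfl fun j _ => ?_
        ring
      rw [e1, lintegral_finsetSum]
      · rw [Finset.sum_congr rfl fun (j : ℕ) _ => hsym j f _ hf (hehm j), ← lintegral_finsetSum]
        · refine lintegral_congr fun x => ?_
          rw [Finset.mul_sum]
        · intro j _
          exact hf.mul (hTm j _ (hehm j))
      · intro j _
        exact (hTm j f hf).mul (hehm j)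
    have h2 : A ^ 2 ≤ (∫⁻ x, f x ^ 2) * (2 * C * ∫⁻ x, h x * U h x) := by
      calc A ^ 2 = (∫⁻ x, f x * ∑ j ∈ Finset.range K, T L j (fun y => e j y * h y) x) ^ 2 := by
            rw [← h1]
        _ ≤ (∫⁻ x, f x ^ 2) * ∫⁻ x, (∑ j ∈ Finset.range K, T L j (fun y => e j y * h y) x) ^ 2 :=
            cs volume hf (Finset.measurable_sum _ fun j _ => hTm j _ (hehm j))
        _ ≤ _ := by
            gcongr
            exact tts hTm hsym hMK hC K e hem he h hhm
    have h3 : ∫⁻ x, h x * U h x ≤ NNReal.sqrt B * A := by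
      have h4 : (∫⁻ x, h x * U h x) ^ 2 ≤ (NNReal.sqrt B * A) ^ 2 := by
        calc (∫⁻ x, h x * U h x) ^ 2 ≤ A * ∫⁻ x, U h x ^ 2 := cs volume hhm (hUm h hhm)
          _ ≤ A * (B * A) := by
              gcongr
              exact hB h hhm hAt
          _ = _ := by
              rw [mul_pow, ← ENNReal.coe_pow, NNReal.sq_sqrt]
              ring
      exact (ENNReal.pow_le_pow_left_iff (by norm_num)).1 h4
    rw [ENNReal.coe_mul, hD2]
    rcases eq_or_ne A 0 with hA0 | hA0
    · rw [hA0]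
      exact zero_le
    · have h5 : A * A ≤ (2 * C * NNReal.sqrt B * ∫⁻ x, f x ^ 2) * A := by
        calc A * A = A ^ 2 := (sq A).symm
          _ ≤ (∫⁻ x, f x ^ 2) * (2 * C * ∫⁻ x, h x * U h x) := h2
          _ ≤ (∫⁻ x, f x ^ 2) * (2 * C * (NNReal.sqrt B * A)) := by gcongr
          _ = _ := by ring
      exact (ENNReal.mul_le_mul_iff_left hA0 hAt).1 h5
  have h6 := inf_le D S hinf hstep
  have h7 := hinf f hf hF
  refine h7.trans ?_
  gcongr
  rw [← hD2]
  exact_mod_cast h6

end main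

theorem t_MX : S_MK → S_ML → S_MX := by
  intro hMK0 hML0 n L hn hL
  obtain ⟨C, hC, hMK1⟩ := hMK0 n L hn hL
  obtain ⟨hTm, ⟨C2, hC2, hL2⟩, hsym⟩ := hML0 n L hn hL
  have hMK : ∀ i j : ℤ, i ≤ j → ∀ f : E n → ℝ≥0∞, Measurable f → ∀ x,
      T L i (T L j f) x ≤ C * T L i f x := fun i j hij f hf x => (hMK1 i j hij f hf x).1
  have hC' : (2 * C) ^ 2 + 1 ≠ ⊤ :=
    ENNReal.add_ne_top.2 ⟨ENNReal.pow_ne_top (ENNReal.mul_ne_top (by norm_num) hC), by norm_num⟩
  refine ⟨(2 * C) ^ 2 + 1, hC', fun f hf => ?_⟩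
  by_cases hF : ∫⁻ x, f x ^ 2 = ⊤
  · rw [hF, ENNReal.mul_top (by simp)]
    exact le_top
  have hps : ∀ J : ℕ, ∫⁻ x, (partialSups (fun j : ℕ => T L j f) J x) ^ 2 ≤
      (2 * C) ^ 2 * ∫⁻ x, f x ^ 2 := by
    intro J
    obtain ⟨e, hem, he, hge⟩ := sel (fun j : ℕ => T L j f) (fun j => hTm j f hf) J
    refine le_trans (lintegral_mono fun x => ?_) (lin_bound hTm hsym hC2 hL2 hMK hC (J + 1) e hem he
      f hf hF)
    gcongr
    rw [partialSups_apply, Finset.sup'_apply]
    refine Finset.sup'_le _ _ fun i hi => ?_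
    rw [Finset.mem_Iic] at hi
    exact hge x i hi
  have hsup : ∀ x, (⨆ j : ℕ, T L j f x) ^ 2 = ⨆ J : ℕ, (partialSups (fun j : ℕ => T L j f) J x) ^ 2 := by
    intro x
    rw [← ENNReal.iSup_pow]
    congr 1
    have h1 := iSup_partialSups_eq (fun j : ℕ => T L j f)
    have h2 := congrFun h1 x
    rw [iSup_apply, iSup_apply] at h2
    exact h2.symm
  rw [lintegral_congr hsup, lintegral_iSup]
  · refine (iSup_le hps).trans ?_
    gcongr
    exact le_self_add
  · intro J
    refine Measurable.pow_const ?_ 2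
    have h3 : (partialSups (fun j : ℕ => T L j f) J) = (Finset.Iic J).sup'
      Finset.nonempty_Iic (fun j : ℕ => T L j f) := by
      rfl
    rw [h3]
    exact Finset.measurable_sup' _ fun j _ => hTm j f hf
  · intro J J' hJ x
    have h4 := (partialSups (fun j : ℕ => T L j f)).monotone hJ x
    exact pow_le_pow_left' h4 2

end Pool.Agent.Run7.h594.BC
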